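import Pool.Agent.Y104.WL.Stm

/-!
# Project WL: a building block
-/

open Finset Module
open scoped Matrix

set_option linter.unusedSectionVars false

universe u

namespace Pool.Agent.Y287.WL

open Pool.Agent.Y104.Kempf Pool.Agent.Y104.WL

/-- WL-CHG -/
theorem chg : S_CHG.{u} := by
  intro L _ S β _ _ _ _ h g B hgh Z r E
  have hM : hᵀ * (gᵀ * B * g) * h = B := by
    have h1 : hᵀ * gᵀ = 1 := by rw [← Matrix.transpose_mul, hgh, Matrix.transpose_one]
    calc hᵀ * (gᵀ * B * g) * h = (hᵀ * gᵀ) * B * (g * h) := by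
          simp only [Matrix.mul_assoc]
      _ = B := by rw [h1, hgh, Matrix.one_mul, Matrix.mul_one]
  obtain ⟨M, hMd⟩ : ∃ M : Matrix β β L, M = gᵀ * B * g := ⟨_, rfl⟩
  rw [← hMd] at hM ⊢
  have hent : ∀ i i' : β, B i i' = ∑ t : β × β, M t.1 t.2 * (h t.1 i * h t.2 i') := by
    intro i i'
    conv_lhs => rw [← hM]
    rw [Matrix.mul_apply, Fintype.sum_prod_type_right]
    refine Finset.sum_congr rfl fun q _ => ?_
    rw [Matrix.mul_apply, Finset.sum_mul]
    refine Finset.sum_congr rfl fun p _ => ?_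
    rw [Matrix.transpose_apply]
    ring
  have key : ∀ I : S → β, ∑ J : S → β, (∏ s, h (J s) (I s)) *
      ∏ l, M (J (E (l, 0))) (J (E (l, 1))) = ∏ l, B (I (E (l, 0))) (I (E (l, 1))) := by
    intro I
    simp only [hent]
    rw [Finset.prod_univ_sum, Fintype.piFinset_univ]
    symm
    refine Fintype.sum_equiv ((pairEquiv r β).trans (Equiv.arrowCongr E (Equiv.refl β))) _ _
      fun f => ?_
    have h4 : ∀ l, ((pairEquiv r β).trans (Equiv.arrowCongr E (Equiv.refl β))) f (E (l, 0)) =
        (f l).1 := by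
      intro l
      change pairEquiv r β f (E.symm (E (l, 0))) = _
      rw [Equiv.symm_apply_apply]
      rfl
    have h5 : ∀ l, ((pairEquiv r β).trans (Equiv.arrowCongr E (Equiv.refl β))) f (E (l, 1)) =
        (f l).2 := by
      intro l
      change pairEquiv r β f (E.symm (E (l, 1))) = _
      rw [Equiv.symm_apply_apply]
      rfl
    rw [← Equiv.prod_comp E, Fintype.prod_prod_type]
    simp only [Fin.prod_univ_two, h4, h5]
    rw [← Finset.prod_mul_distrib]
    exact Finset.prod_congr rfl fun l _ => by ring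
  symm
  calc ∑ J : S → β, tact h Z J * ∏ l, M (J (E (l, 0))) (J (E (l, 1)))
      = ∑ J : S → β, ∑ I : S → β, Z I * ((∏ s, h (J s) (I s)) *
          ∏ l, M (J (E (l, 0))) (J (E (l, 1)))) := by
        refine Finset.sum_congr rfl fun J _ => ?_
        unfold tact
        rw [Finset.sum_mul]
        exact Finset.sum_congr rfl fun I _ => by ring
    _ = ∑ I : S → β, Z I * ∏ l, B (I (E (l, 0))) (I (E (l, 1))) := by
        rw [Finset.sum_comm]
        refine Finset.sum_congr rfl fun I _ => ?_
        rw [← Finset.mul_sum, key]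

end Pool.Agent.Y287.WL
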