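import Pool.Agent.Y104.WL.Stm

/-!
# Project WL: a building block
-/

open Finset Module
open scoped Matrix

set_option linter.unusedSectionVars false

universe u

namespace Pool.Agent.Y287.WL

open Pool.Agent.Y104.Kempf Pool.Agent.Y104.WL

/-- WL-CMB -/
theorem cmb : S_CMB := by
  intro a n _ _ _ w ω J hJ hcard
  obtain ⟨A, hA⟩ : ∃ A : Finset n, A = univ.map ⟨J, hJ⟩ := ⟨_, rfl⟩
  obtain ⟨P, hP⟩ : ∃ P : Finset n, P = univ.filter fun p => ω ≤ w p := ⟨_, rfl⟩
  have hAc : A.card = P.card := by rw [hA, card_map, card_univ, hcard, hP]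
  have hsA : ∀ f : n → ℝ, ∑ p ∈ A, f p = ∑ x, f (J x) := fun f => by rw [hA, sum_map]; rfl
  have h1 : ∀ p ∈ A, w p - ω ≤ max (w p - ω) 0 := fun p _ => le_max_left _ _
  have h2 : ∑ p ∈ A, max (w p - ω) 0 ≤ ∑ p, max (w p - ω) 0 :=
    sum_le_sum_of_subset_of_nonneg (subset_univ _) fun p _ _ => le_max_right _ _
  have h3 : ∑ p, max (w p - ω) 0 = ∑ p ∈ P, (w p - ω) := by
    rw [hP, sum_filter]
    refine sum_congr rfl fun p _ => ?_
    split_ifs with h
    · exact max_eq_left (by linarith)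
    · exact max_eq_right (by linarith)
  have h4 : ∑ p ∈ A, (w p - ω) = ∑ x, w (J x) - A.card * ω := by
    rw [sum_sub_distrib, sum_const, nsmul_eq_mul, hsA]
  have h5 : ∑ p ∈ P, (w p - ω) = ∑ p ∈ P, w p - P.card * ω := by
    rw [sum_sub_distrib, sum_const, nsmul_eq_mul]
  have h6 := sum_le_sum h1
  rw [← hP]
  have hAc' : (A.card : ℝ) * ω = P.card * ω := by rw [hAc]
  refine ⟨by linarith, fun he x => ?_⟩
  have h7 : ∑ p ∈ A, (w p - ω) = ∑ p ∈ A, max (w p - ω) 0 := by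
    refine le_antisymm h6 ?_
    linarith
  have h8 := (sum_eq_sum_iff_of_le h1).1 h7 (J x) (by
    rw [hA]
    exact mem_map_of_mem _ (mem_univ x))
  have h9 := le_max_right (w (J x) - ω) 0
  rw [← h8] at h9
  linarith

end Pool.Agent.Y287.WL
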