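import Pool.Agent.Y104.WL.Stm

/-!
# Project WL: a building block
-/

open Finset Module
open scoped Matrix

set_option linter.unusedSectionVars false

universe u

namespace Pool.Agent.Y287.WL

open Pool.Agent.Y104.Kempf Pool.Agent.Y104.WL

/-- WL-INV -/
theorem inv_wt : S_INV.{u} := by
  intro L _ n _ _ G w _ hw hG p q hpq
  have h1 : G.adjugate p q ≠ 0 := by
    intro h
    apply hpq
    rw [Matrix.inv_def, Matrix.smul_apply, h, smul_zero]
  rw [Matrix.adjugate_apply, Matrix.det_apply] at h1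
  obtain ⟨σ, -, hσ⟩ := Finset.exists_ne_zero_of_sum_ne_zero h1
  have h2 : ∏ i, (G.updateRow q (Pi.single p 1)) (σ i) i ≠ 0 := by
    intro h
    apply hσ
    rw [h, smul_zero]
  have h3 : ∀ i, (G.updateRow q (Pi.single p 1)) (σ i) i ≠ 0 := fun i =>
    Finset.prod_ne_zero_iff.1 h2 i (mem_univ i)
  have h4 : σ p = q := by
    obtain ⟨i, hi⟩ := σ.surjective q
    have h5 := h3 i
    rw [hi, Matrix.updateRow_self] at h5
    have h6 : i = p := by
      by_contra hne
      exact h5 (Pi.single_eq_of_ne hne 1)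
    rw [← h6]
    exact hi
  have h5 : ∀ i, i ≠ p → w (σ i) + w i ≤ 0 := by
    intro i hi
    have h6 := h3 i
    have h7 : σ i ≠ q := fun h => hi (σ.injective (h.trans h4.symm))
    rw [Matrix.updateRow_ne h7] at h6
    exact hG _ _ h6
  have h6 : ∑ i ∈ univ.erase p, (w (σ i) + w i) ≤ 0 :=
    Finset.sum_nonpos fun i hi => h5 i (Finset.ne_of_mem_erase hi)
  have h7 := Finset.add_sum_erase univ (fun i => w (σ i) + w i) (mem_univ p)
  have h8 : ∑ i, (w (σ i) + w i) = 0 := by
    rw [Finset.sum_add_distrib, Equiv.sum_comp σ w, hw, add_zero]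
  rw [h8] at h7
  have h9 : w (σ p) + w p + ∑ i ∈ univ.erase p, (w (σ i) + w i) = 0 := h7
  rw [h4] at h9
  linarith

end Pool.Agent.Y287.WL
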